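import Pool.Agent.K1H11.NS8.Unify

/-!
# Every smooth solution continues past its breakdown, with no other singular time

Let `(u, p)` be any smooth periodic solution of the Navier-Stokes equations on `[0, T)`, for instance the classical
solution of any smooth datum up to its time of breakdown, if it breaks down, and let `w` be any global smooth periodic
solution with the same mean. There is a velocity field `U` on `[0, ∞) × ℝ³` which is `u` on `[0, T)`, which is a
smooth solution on `(T, ∞)`, within `ε` of `w` (started at the time `T`) from the time `T + ε` on, and which is a weak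
solution on `[0, ∞)` of the Cauchy problem with the initial value `u(0)` (the usual weak formulation, with test fields
which need not vanish at the time zero). So every smooth datum has a global weak solution with at most one singular
time, the time of breakdown of the classical solution. At the time `T` the field `U` is continuous with values in
`H⁻¹`, its value `a` at the time `T` is square integrable, and `√(t - T) ‖U(t)‖_∞ → 0` as `t ↓ T`,
`∫_T^{T+1} (√(t - T) ‖U(t)‖_∞)^s dt/(t - T) < ∞` for all `s > 2` (so `U ∈ L^p(T, T + 1; L^∞)` for all `p < 2`).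

The case `T = 0` is allowed, with any real divergence free Fourier series `b` as the initial value, without any
condition on the size of the coefficients: it is the initial value of smooth flows on `(0, ∞)`, in all critical spaces
`FB^{-1}_{1,r}`, `r > 2`, to which it belongs and in all weighted `ℓ¹` spaces of Fourier coefficients with weights at
most `|k|^{-2}` to which it belongs, and in the sense of the weak formulation if `b ∈ H⁻¹`. (It is known that for
`T = 0` and smooth `b` the solution with `U(t) → b` in `FB^{-1}_{1,2}`, or with `∫_0^1 ‖U(t)‖_∞² dt < ∞`, is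
unique, so the conditions `r > 2` and `s > 2` are sharp.)
-/

open MeasureTheory Set Filter Topology
open scoped ContDiff ENNReal

namespace Pool.Agent.Results.MP_6bf1e5_an.ContinuationPastBreakdown

open Pool.Agent.H356R3.NS (AdmissiblePeriodic R3 fc critNorm)
open Pool.Agent.K1H11.NS (TestField weakInt pairing)
open H459R3.NS (IsSol)

/-- `b` is the sequence of the Fourier coefficients of a real, divergence free, `ℤ³`-periodic field with mean `m`.
There is no condition on the size of the coefficients. -/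
structure DivFreeSeries (m : R3) (b : (Fin 3 → ℤ) → Fin 3 → ℂ) : Prop where
  real : ∀ k i, b (-k) i = star (b k i)
  divFree : ∀ k, ∑ i, (k i : ℂ) * b k i = 0
  mean : ∀ i, b 0 i = (m i : ℂ)

/-- The square of the norm of `H⁻¹` of the part of the field with mean zero: the sum of `|b(k)|² / |k|²` over
`k ≠ 0`. -/
noncomputable def normHMinusOneSq (b : (Fin 3 → ℤ) → Fin 3 → ℂ) : ℝ≥0∞ :=
  ∑' k, if k = 0 then 0 else ‖b k‖ₑ ^ 2 / ENNReal.ofReal (∑ i, (k i : ℝ) ^ 2)

/-- Let `ν > 0`, `T ≥ 0`, `m ∈ ℝ³`, let `b` be a real divergence free Fourier series with mean `m`, let `(u, p)` be a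
smooth (unforced) periodic solution on `[0, T)` with the initial velocity `b` (if `T = 0`, there is no solution `u`, and
`b` is arbitrary), let `(w, q)` be an admissible (global smooth, unforced) periodic solution with mean `m`, and let
`ε > 0`. There are `U : ℝ → R3 → R3` and `a : ℤ³ → ℂ³`, the value at the time `T`, such that
(i) `a = b` if `T = 0`, and `∑ |a(k)|² ≤ ∑ |b(k)|²`,
(ii) `U(t) = u(t)` for `t < T`,
(iii) for all `t₀ > T` there is a pressure with which `t ↦ U(t₀ + t)`, `t ≥ 0`, is an admissible periodic solution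
with initial velocity `U(t₀)`,
(iv) `|U(t) - w(t - T)| ≤ ε` at all times `t ≥ T + ε`, uniformly in space,
(v) `√(t - T) ‖U(t)‖_∞ → 0` as `t ↓ T`, and `∫_T^{T+1} (√(t - T) ‖U(t)‖_∞)^s dt/(t - T) < ∞` for all `s > 2`,
(vi) for all `r > 2` with `‖a‖ < ∞` in the critical Fourier-Besov space `FB^{-1}_{1,r}` we have `U(t) → a` in
`FB^{-1}_{1,r}` as `t ↓ T`,
(vii) for all weights `ω ≥ 0` with `ω(k) ≤ |k|^{-2}` for `k ≠ 0` and `∑ ω(k) |a(k)| < ∞` we have
`∑ ω(k) |fc (U t) k - a(k)| → 0` as `t ↓ T`,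
(viii) if `b ∈ H⁻¹` (as is the case for all smooth `b`, so if `T > 0`) then `U(t) → a` in `H⁻¹` as `t → T`, from both
sides if `T > 0`, `∫_0^R ∫ |U|² dx dt < ∞` for all `R`, and for all smooth periodic divergence free test fields `φ` on
`ℝ × ℝ³` which vanish for large times
`∫_0^∞ ∫ (U · ∂_t φ + ν U · Δφ + ∑ U_i U_j ∂_j φ_i) dx dt + ⟨b, φ(0)⟩ = 0`. -/
theorem result (ν T : ℝ) (hν : 0 < ν) (hT : 0 ≤ T) (m : R3)
    (b : (Fin 3 → ℤ) → Fin 3 → ℂ) (hb : DivFreeSeries m b)
    (u : ℝ → R3 → R3) (p : ℝ → R3 → ℝ) (hu : IsSol ν T u p) (hub : 0 < T → fc (u 0) = b)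
    (w₀ : R3 → R3) (w : ℝ → R3 → R3) (q : ℝ → R3 → ℝ) (hw : AdmissiblePeriodic ν w₀ w q)
    (hm : ∀ i, ∫ x in Icc (0 : R3) 1, w₀ x i = m i) (ε : ℝ) (hε : 0 < ε) :
    ∃ (U : ℝ → R3 → R3) (a : (Fin 3 → ℤ) → Fin 3 → ℂ),
      (T = 0 → a = b) ∧
      ∑' k, ∑ i, ‖a k i‖ₑ ^ 2 ≤ ∑' k, ∑ i, ‖b k i‖ₑ ^ 2 ∧
      (∀ t : ℝ, t < T → U t = u t) ∧
      (∀ t₀ : ℝ, T < t₀ → ∃ p' : ℝ → R3 → ℝ, AdmissiblePeriodic ν (U t₀) (fun t => U (t₀ + t)) p') ∧
      (∀ t : ℝ, T + ε ≤ t → ∀ x i, |U t x i - w (t - T) x i| ≤ ε) ∧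
      (∀ ρ : ℝ, 0 < ρ → ∃ δ : ℝ, 0 < δ ∧ ∀ t : ℝ, T < t → t ≤ T + δ → ∀ x i,
        Real.sqrt (t - T) * |U t x i| ≤ ρ) ∧
      (∀ s : ℝ, 2 < s → ∫⁻ t in Ioc T (T + 1),
        (ENNReal.ofReal (Real.sqrt (t - T)) * ⨆ x, ‖U t x‖ₑ) ^ s / ENNReal.ofReal (t - T) ≠ ⊤) ∧
      (∀ r : ℝ, 2 < r → critNorm r a ≠ ⊤ →
        Tendsto (fun t : ℝ => critNorm r (fun k => fc (U t) k - a k)) (𝓝[>] T) (𝓝 0)) ∧
      (∀ wt : (Fin 3 → ℤ) → ℝ≥0∞, (∀ k, k ≠ 0 → wt k ≤ ENNReal.ofReal (1 / ∑ i, (k i : ℝ) ^ 2)) →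
        ∑' k, wt k * ‖a k‖ₑ ≠ ⊤ →
        Tendsto (fun t : ℝ => ∑' k, wt k * ‖fc (U t) k - a k‖ₑ) (𝓝[>] T) (𝓝 0)) ∧
      (normHMinusOneSq b ≠ ⊤ →
        Tendsto (fun t : ℝ => normHMinusOneSq (fun k => fc (U t) k - a k)) (𝓝[Ioi 0 \ {T}] T) (𝓝 0) ∧
        (∀ R : ℝ, ∫⁻ t in Ioc 0 R, ∫⁻ x in Icc (0 : R3) 1, ‖U t x‖ₑ ^ 2 ≠ ⊤) ∧
        ∀ φ : ℝ → R3 → R3, TestField φ →
          IntegrableOn (fun z : ℝ × R3 => weakInt ν U φ z.1 z.2) (Ioi 0 ×ˢ Icc 0 1) ∧
          (∫ z in Ioi (0 : ℝ) ×ˢ Icc (0 : R3) 1, weakInt ν U φ z.1 z.2) + pairing b (φ 0) = 0) :=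
  K1H11.NS.continuation' hν hT hu hb.real hb.divFree hb.mean hub hw hm hε

end Pool.Agent.Results.MP_6bf1e5_an.ContinuationPastBreakdown
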