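import Pool.Agent.K1H11.NS4.FamB

/-!
# Compact families of data near good data in the critical norm which follow prescribed solutions

There is an absolute constant `C` such that every continuous family `u₀` of smooth periodic divergence free
fields with a compact parameter space `Θ` can be changed, on a set of measure at most `η`, by at most `C ν / η`
in the Lei-Lin norm `‖·‖_{χ^{-1}}` (a critical norm) and by as little as we like at the low frequencies, into a
continuous family `v₀` such that each `v₀ θ` and all data in an open ball around it are initial velocities of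
global smooth solutions which from time `ε` on are within `ε` of an arbitrarily prescribed global smooth
solution `w θ`. The size of `u₀` does not matter.
-/

open MeasureTheory Set Filter Topology
open scoped ContDiff ENNReal

namespace Pool.Agent.Results.MP_6bf1e5_an.CriticalShadowing

open Pool.Agent.H356R3.NS (AdmissiblePeriodic R3 pd fc critNorm leiLin)

/-- `v` is an initial velocity of the periodic problem with mean `m`: `C^∞`, `ℤ³`-periodic and divergence free,
with `∫ v = m` over the period cell. -/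
structure Datum (m : R3) (v : R3 → R3) : Prop where
  smooth : ContDiff ℝ ∞ v
  periodic : ∀ x j, v (x + Pi.single j 1) = v x
  divFree : ∀ x, ∑ i, pd i (fun y => v y i) x = 0
  mean : ∀ i, ∫ x in Icc (0 : R3) 1, v x i = m i

/-- `v` is a family of initial velocities with mean `m`, continuous in the parameter in the `C^∞` topology: for
all `n` the norm `∑_k (1 + |k|₁)^n |a(k)|` of the Fourier coefficients of `v θ - v θ₀` tends to `0` as
`θ → θ₀`. -/
structure Family {Θ : Type} [TopologicalSpace Θ] (m : R3) (v : Θ → R3 → R3) : Prop where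
  datum : ∀ θ, Datum m (v θ)
  cont : ∀ (n : ℕ) (θ₀ : Θ), Tendsto (fun θ => ∑' k : Fin 3 → ℤ,
    ENNReal.ofReal ((1 + ∑ i, |(k i : ℝ)|) ^ n) * ‖fc (v θ) k - fc (v θ₀) k‖ₑ) (𝓝 θ₀) (𝓝 0)

theorem Datum.sp {m : R3} {v : R3 → R3} (h : Datum m v) (i : Fin 3) : H459R3.NS.SP fun x => v x i :=
  ⟨contDiff_pi.1 h.smooth i, fun j x => by simp only [h.periodic x j]⟩

theorem Datum.of {m : R3} {v : R3 → R3} (h1 : ∀ i, H459R3.NS.SP fun x => v x i)
    (h2 : ∀ x, ∑ i, H459R3.NS.pd i (fun y => v y i) x = 0)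
    (h3 : ∀ i, ∫ x in H459R3.NS.cube, v x i = m i) : Datum m v :=
  ⟨contDiff_pi.2 fun i => (h1 i).smooth, fun x j => funext fun i => (h1 i).per j x, h2, h3⟩

theorem Family.uc {Θ : Type} [TopologicalSpace Θ] [CompactSpace Θ] {m : R3} {v : Θ → R3 → R3}
    (h : Family m v) (i : Fin 3) : K1H11.NS.UC fun θ x => v θ x i :=
  K1H11.NS.UC_of_wd (fun θ => (h.datum θ).sp) h.cont i

theorem Family.of {Θ : Type} [TopologicalSpace Θ] {m : R3} {v : Θ → R3 → R3}
    (h1 : ∀ i, K1H11.NS.UC fun θ x => v θ x i)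
    (h2 : ∀ θ x, ∑ i, H459R3.NS.pd i (fun y => v θ y i) x = 0)
    (h3 : ∀ θ i, ∫ x in H459R3.NS.cube, v θ x i = m i) : Family m v :=
  ⟨fun θ => Datum.of (fun i => (h1 i).sp θ) (h2 θ) (h3 θ), K1H11.NS.wd_of_UC h1⟩

/-- There is an absolute constant `C` with the following property. Let `ν > 0`, let `Θ` be a compact space, let
`u₀ : Θ → data` be a continuous family of data with mean `m`, and let `(w θ, q θ)`, `θ ∈ Θ`, be any admissible
(global smooth) periodic solutions of the Navier-Stokes equations with viscosity `ν` whose initial velocities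
`w₀ θ` form a continuous family with mean `m` (for instance one solution `(w, q)` for all `θ`). For all
`0 < η ≤ 1`, `ε > 0` and integers `J ≥ 1`, `K ≥ 0` there is a continuous family `v₀ : Θ → data` with mean `m`
such that outside one set of measure at most `η` in the period cell all `v₀ θ` are equal to `u₀ θ`, and such that
for all `θ` we have `‖v₀ θ - u₀ θ‖ ≤ C ν √J / η` in the Lei-Lin norm, `‖v₀ θ - u₀ θ‖ ≤ C ν J^(1/r - 1/2) / η` in
the critical Fourier-Besov norm of `FB^{-1}_{1,r}` for all `r ≥ 1`, and all Fourier coefficients of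
`v₀ θ - u₀ θ` at the frequencies `|k|_∞ ≤ K` are at most `ε`; and there is `δ > 0` such that for every `θ` and
every datum `z₀` with mean `m` at Lei-Lin distance at most `δ` from `v₀ θ` (`z₀ = v₀ θ` included) there is an
admissible periodic solution `(u, p)` with `u(0) = z₀` and with `u(t)` within `ε` of `w θ (t)`, uniformly in
space, at all times `t ≥ ε`. -/
theorem result : ∃ C : ℝ, 0 < C ∧ ∀ ν : ℝ, 0 < ν → ∀ (Θ : Type) [TopologicalSpace Θ] [CompactSpace Θ]
    (m : R3) (u₀ w₀ : Θ → R3 → R3) (w : Θ → ℝ → R3 → R3) (q : Θ → ℝ → R3 → ℝ),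
    Family m u₀ → Family m w₀ → (∀ θ, AdmissiblePeriodic ν (w₀ θ) (w θ) (q θ)) →
    ∀ η ε : ℝ, 0 < η → η ≤ 1 → 0 < ε → ∀ J K : ℕ, 1 ≤ J →
    ∃ v₀ : Θ → R3 → R3, Family m v₀ ∧
      volume {x | x ∈ Icc (0 : R3) 1 ∧ ∃ θ, v₀ θ x ≠ u₀ θ x} ≤ ENNReal.ofReal η ∧
      (∀ θ, leiLin (fun k => fc (v₀ θ) k - fc (u₀ θ) k) ≤ ENNReal.ofReal (C * ν * Real.sqrt J / η)) ∧
      (∀ (θ : Θ) (r : ℝ), 1 ≤ r → critNorm r (fun k => fc (v₀ θ) k - fc (u₀ θ) k) ≤
        ENNReal.ofReal (C * ν * (J : ℝ) ^ (1 / r - 1 / 2) / η)) ∧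
      (∀ (θ : Θ) (k : Fin 3 → ℤ), (∀ i, |k i| ≤ K) → ‖fc (v₀ θ) k - fc (u₀ θ) k‖ ≤ ε) ∧
      ∃ δ : ℝ, 0 < δ ∧ ∀ (θ : Θ) (z₀ : R3 → R3), Datum m z₀ →
        leiLin (fun k => fc z₀ k - fc (v₀ θ) k) ≤ ENNReal.ofReal δ →
        ∃ (u : ℝ → R3 → R3) (p : ℝ → R3 → ℝ), AdmissiblePeriodic ν z₀ u p ∧
          ∀ t, ε ≤ t → ∀ x i, |u t x i - w θ t x i| ≤ ε := by
  obtain ⟨C, hC0, hC⟩ := K1H11.NS.famA_main
  refine ⟨C, hC0, fun ν hν Θ _ _ m u₀ w₀ w q hu₀ hw₀ hw η ε h0 h1 hε J K hJ => ?_⟩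
  obtain ⟨v₀, a1, a2, a3, a4, a5, a6, a7, δ, hδ, a8⟩ :=
    hC ν hν Θ u₀ w₀ w q hu₀.uc (fun θ => (hu₀.datum θ).divFree) hw₀.uc (fun θ => (hw₀.datum θ).divFree) m
      (fun θ => (hu₀.datum θ).mean) (fun θ => (hw₀.datum θ).mean) hw η ε h0 h1 hε J K hJ
  exact ⟨v₀, Family.of a1 a2 a3, a4, a5, a6, a7, δ, hδ, fun θ z₀ hz hzl =>
    a8 θ z₀ hz.sp hz.divFree hz.mean hzl⟩

end Pool.Agent.Results.MP_6bf1e5_an.CriticalShadowing
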