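import Pool.Agent.K1H52.Gau

/-!
The parabolic Hausdorff measure of the singular set of a suitable weak solution of the
Navier-Stokes equations vanishes for each gauge `h` with `∫ dr / h r = ∞` at zero.

Caffarelli, Kohn and Nirenberg: `h r = r`. The theorem contains `h r = r * log (1 / r)` and
`h r = r * log (1 / r) * log (log (1 / r))`. `V = Fin 3 → ℝ` with the maximum norm. See the claim
file for the definitions.
-/

open MeasureTheory Set

namespace Pool.Agent.Results.MP_6bf1e5_an.LogGaugeCKN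

open H459R3.NS W221.NS Pool.Agent.Y8

/-- Let `h r / r` be nonincreasing on `(0, 1]`, `h` positive, and let the integral of `1 / h` over
`(0, 1]` be infinite. Then for all `ν`, `T`, `E`, `D`, `0 < a`, `b < T` and all positive `ε` and
`δ` there is a radius `r₀ > 0` such that for every suitable weak periodic solution on
`(0, T) × ℝ³` with viscosity `ν`, energy at most `E²` and total enstrophy at most `D` the set of the
singular points `(t, x)` with `t` in `[a, b]` and `x` in the cube has a finite covering by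
parabolic cylinders `|t - s| < r²`, `|x - y| < r`, centred at singular points `(s, y)` of this set,
with radii `r` in `[r₀, δ)` such that the sum of `h r` is less than `ε`. -/
theorem result (ν T E D a b : ℝ) (h : ℝ → ℝ) (hν : 0 < ν) (ha : 0 < a) (hb : b < T)
    (hpos : ∀ r ∈ Ioc (0 : ℝ) 1, 0 < h r) (hanti : AntitoneOn (fun r => h r / r) (Ioc 0 1))
    (hint : ∫⁻ r in Ioc (0 : ℝ) 1, ENNReal.ofReal (1 / h r) = ⊤) (ε δ : ℝ) (hε : 0 < ε)
    (hδ : 0 < δ) : ∃ r₀ : ℝ, 0 < r₀ ∧
    ∀ (G : Set ℝ) (u : ℝ → V → V) (p : ℝ → V → ℝ), Turb ν T E D G u p →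
    ∃ S : Finset (ℝ × ℝ × V),
      (∀ s ∈ S, r₀ ≤ s.1 ∧ s.1 < δ ∧ s.1 ≤ 1 ∧ s.2.1 ∈ Icc a b ∧ s.2.2 ∈ cube ∧
        SingPt G u s.2.1 s.2.2) ∧
      (∀ t ∈ Icc a b, ∀ x ∈ cube, SingPt G u t x →
        ∃ s ∈ S, |t - s.2.1| < s.1 ^ 2 ∧ ‖x - s.2.2‖ < s.1) ∧
      ∑ s ∈ S, h s.1 < ε :=
  Pool.Agent.K1H52.gauge ν T E D a b h hν ha hb hpos hanti hint ε δ hε hδ

end Pool.Agent.Results.MP_6bf1e5_an.LogGaugeCKN
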